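import Pool.Agent.Q265.AssFinal

/-!
# MP_68e822_an, Q1: the answer is negative

For `ω t = √t` the functions `f ∈ C^ω[0,1]` near `∑ 4^{-k} dist (16^k x, ℤ)` oscillate by at
least a constant times `√h` on every interval of length `h`; hence all the level sets of
`f` are porous in a uniform way, and the Assouad dimension of the graph is at most a constant
`d < 2`. So the set of the `f` with `dim_A G_f < 2` contains a nonempty open set.

The definitions (moduli, the normed space `C^ω[0,1]`, graphs, packing numbers, the Assouad
dimension) are in `Pool.Agent.Q265.AssDefs`.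
-/

open Set Filter Topology

namespace Pool.Agent.Results.MP_68e822_an.OscillatingFunctions

open Q265.Ass

/-- **Q1 is false for `ω t = √t`.** `ω` is a concave modulus of continuity with
`ω t / t → ∞`; there is a nonempty open set `V` of the Banach space `C^ω[0,1]` and `d < 2`
such that `dim_A G_f ≤ d` for all `f ∈ V`. In particular the set of the `f` with
`dim_A G_f < 2` is not meagre and the set of the `f` with `dim_A G_f = 2` is not residual. -/
theorem result :
    ∃ ω : Modulus, (∀ t, ω.toFun t = √t) ∧ ConcaveOn ℝ (Icc (0 : ℝ) 1) ω.toFun ∧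
      Tendsto (fun t => ω.toFun t / t) (𝓝[>] 0) atTop ∧
      (∃ V : Set (COmega ω), IsOpen V ∧ V.Nonempty ∧
        ∃ d : ℝ, d < 2 ∧ ∀ f ∈ V, dimA (graph (fun x => f x)) ≤ d) ∧
      ¬ IsMeagre {f : COmega ω | dimA (graph (fun x => f x)) < 2} ∧
      {f : COmega ω | dimA (graph (fun x => f x)) = 2} ∉ residual (COmega ω) := by
  have h2 : ∀ f ∈ U, dimA (graph (fun x => f x)) ≤ bet 256 := fun f hf => dimA_le (U_osc hf)
  have h3 : bet 256 < 2 := bet_lt_two (by norm_num)
  refine ⟨sqrtMod, fun t => rfl, sqrt_concave, sqrt_div_tendsto,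
    ⟨U, U_open, U_nonempty, bet 256, h3, h2⟩, ?_, ?_⟩
  · exact COmega.not_meagre U_open U_nonempty fun f hf => lt_of_le_of_lt (h2 f hf) h3
  · refine COmega.not_residual U_open U_nonempty ?_
    rw [Set.disjoint_left]
    intro f hf hf2
    have h4 : dimA (graph (fun x => f x)) = 2 := hf2
    have h5 := h2 f hf
    linarith

end Pool.Agent.Results.MP_68e822_an.OscillatingFunctions
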